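import Mathlib
import Pool.Agent.R463.ChenG

/-!
# Goldbach with one prime and one `P_2` summand, under sieve conditions of any dimension

For EVERY large even `n`: the representations `n = p + P_2` in which the prime `p` avoids, for EVERY prime
`q ≤ n ^ (1 / t)`, up to `r` arbitrary residue classes modulo `q`. Their number has at least the expected
order of magnitude in all long windows, uniformly in the residue classes.
-/

set_option autoImplicit false

open Finset Filter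

namespace Pool.Agent.Results.MP_629a14_nt.ChenSieve

/-- the number of the residues `m` modulo `q` such that `q` divides `m` or `n - m`, or `m ≡ a`
modulo `q` for some `a ∈ F q` -/
def nu (n : ℕ) (F : ℕ → Finset ℤ) (q : ℕ) : ℕ :=
  ((range q).filter (fun m : ℕ => (q : ℤ) ∣ m ∨ (q : ℤ) ∣ (n : ℤ) - m ∨ ∃ a ∈ F q, (q : ℤ) ∣ m - a)).card

/-- at most `r` forbidden classes modulo each prime, and no local obstruction -/
def Sys (r n : ℕ) (F : ℕ → Finset ℤ) : Prop :=
  ∀ q : ℕ, q.Prime → (F q).card ≤ r ∧ nu n F q < q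

/-- the sieve product over the primes `q ≤ n` -/
noncomputable def V (n : ℕ) (F : ℕ → Finset ℤ) : ℝ :=
  ∏ q ∈ (Icc 1 n).filter Nat.Prime, (1 - (nu n F q : ℝ) / q)

open Classical in
/-- the primes `p` in `(A, B]`, `n ^ (1/t) < p < n`, such that `n - p` is a product of at most two primes,
all of them `> n ^ (1/9)` and `> n ^ (1/t)`, and `p` is not in the class of any element of `F q` modulo
`q`, for all primes `q ≤ n ^ (1/t)` -/
noncomputable def G (t n A B : ℕ) (F : ℕ → Finset ℤ) : Finset ℕ :=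
  (Ioc A B).filter (fun p : ℕ => p.Prime ∧ (n : ℝ) ^ (1 / (t : ℝ)) < p ∧ p < n ∧
    (n - p).primeFactorsList.length ≤ 2 ∧
    (∀ q : ℕ, q.Prime → q ∣ n - p → (n : ℝ) ^ (1 / 9 : ℝ) < q ∧ (n : ℝ) ^ (1 / (t : ℝ)) < q) ∧
    ∀ q : ℕ, q.Prime → (q : ℝ) ≤ (n : ℝ) ^ (1 / (t : ℝ)) → ∀ a ∈ F q, ¬ (q : ℤ) ∣ p - a)

lemma e1 (n m : ℤ) : -1 * m + n = n - m := by ring

lemma nu_eq (n : ℕ) (F : ℕ → Finset ℤ) (q : ℕ) : nu n F q = Pool.Agent.R463.CG.nu (-1) n F q := by
  classical
  unfold nu Pool.Agent.R463.CG.nu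
  congr 1
  ext m
  simp only [mem_filter, e1]

lemma V_eq (n : ℕ) (F : ℕ → Finset ℤ) : V n F = Pool.Agent.R463.CG.V (-1) n F n := by
  unfold V Pool.Agent.R463.CG.V
  simp only [nu_eq]

lemma G_eq (t n A B : ℕ) (F : ℕ → Finset ℤ) (hB : B ≤ n) :
    G t n A B F = Pool.Agent.R463.CG.G (-1) n t n A B F := by
  classical
  unfold G Pool.Agent.R463.CG.G
  apply filter_congr
  intro p hp
  rw [mem_Ioc] at hp
  have hpn : p ≤ n := hp.2.trans hB
  have e : ((n : ℤ) - (p : ℤ)) = ((n - p : ℕ) : ℤ) := by omega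
  simp only [e1]
  rw [e]
  simp only [Int.natAbs_natCast, Int.natCast_dvd_natCast]
  constructor
  · rintro ⟨h1, h2, h0, h3, h4, h5⟩
    exact ⟨h1, h2, by omega, h3, h4, h5⟩
  · rintro ⟨h1, h2, h0, h3, h4, h5⟩
    exact ⟨h1, h2, by omega, h3, h4, h5⟩

/-- **Representations `n = p + P_2` under sieve conditions of dimension `r`.**  For every `r` there are
`t ≥ 1` and `c > 0` such that for `θ > 0` and large `n`, uniformly for ALL systems `F` of at most `r`
classes modulo each prime without local obstruction (then `n` is even) and all intervals `(A, B]` with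
`B ≤ n` and `B - A ≥ θ n`, the set `G` has at least `c (B - A) V` elements. -/
theorem result (r : ℕ) : ∃ t : ℕ, 1 ≤ t ∧ ∃ c : ℝ, 0 < c ∧
    (∀ θ : ℝ, 0 < θ → ∃ n₀ : ℕ, ∀ n : ℕ, n₀ ≤ n → ∀ F : ℕ → Finset ℤ,
      Sys r n F → ∀ A B : ℕ, B ≤ n → θ * n ≤ (B : ℝ) - A →
      c * ((B : ℝ) - A) * V n F ≤ ((G t n A B F).card : ℝ)) := by
  obtain ⟨t, ht, c, hc, H1, -⟩ := Pool.Agent.R463.CG.chen (-1) (by norm_num) r
  refine ⟨t, ht, c, hc, ?_⟩
  intro θ hθ
  obtain ⟨X₀, H⟩ := H1 θ hθ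
  refine ⟨max X₀ 1, fun n hn F hF A B hB hAB => ?_⟩
  have hn0 : X₀ ≤ n := (le_max_left _ _).trans hn
  have hn1 : 1 ≤ n := (le_max_right _ _).trans hn
  rw [V_eq, G_eq t n A B F hB]
  refine H n hn0 n (by omega) (by rw [abs_of_nonneg (by positivity)]) F ?_ A B hB hAB
  intro q hq
  refine ⟨(hF q hq).1, ?_⟩
  rw [← nu_eq]
  exact (hF q hq).2

end Pool.Agent.Results.MP_629a14_nt.ChenSieve
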