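import Mathlib
import Pool.Agent.R463.Pair

set_option autoImplicit false

/-!
# Almost prime Goldbach representations in the residue classes of every modulus

For EVERY large even `N` and EVERY modulus `q` (both up to any power of `X`): over the admissible residue
classes modulo `q` the number of the `m` among the first `T` members of the class for which neither `m`
nor `N - m` has a prime factor `≤ X ^ (1 / r)` has a Poisson distribution.
-/

namespace Pool.Agent.Results.MP_629a14_nt.ClassesLaw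

open Finset Filter
open Pool.Agent.R463.PS

/-- neither `m` nor `N - m` has a prime factor `p ≤ X ^ (1 / r)` -/
def Good (N X r m : ℕ) : Prop :=
  ∀ p : ℕ, p.Prime → (p : ℝ) ≤ (X : ℝ) ^ (1 / (r : ℝ)) → ¬ (p : ℤ) ∣ (m : ℤ) ∧ ¬ (p : ℤ) ∣ (N : ℤ) - m

/-- the residue class of `n` modulo `q` is admissible: no prime factor of `q` divides `n` or `N - n` -/
def Adm (N q n : ℕ) : Prop := ∀ p : ℕ, p.Prime → p ∣ q → ¬ (p : ℤ) ∣ (n : ℤ) ∧ ¬ (p : ℤ) ∣ (N : ℤ) - n

/-- `1` for the prime factors of `N`, `2` for the other primes -/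
def nu (N p : ℕ) : ℕ := if p ∣ N then 1 else 2

/-- the density of the good integers in an admissible class: the product of `1 - nu(p) / p` over the
primes `p ≤ X ^ (1 / r)` not dividing `q` -/
noncomputable def V (N q X r : ℕ) : ℝ :=
  ∏ p ∈ (Icc 1 ⌊(X : ℝ) ^ (1 / (r : ℝ))⌋₊).filter Nat.Prime, if p ∣ q then 1 else (1 - (nu N p : ℝ) / p)

/-- the density of the admissible classes: the product of `1 - nu(p) / p` over the prime factors of `q` -/
noncomputable def R (N q : ℕ) : ℝ := ∏ p ∈ q.primeFactors, (1 - (nu N p : ℝ) / p)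

open Classical in
/-- the number of the `1 ≤ h ≤ T` for which `m = n + q h` is good -/
noncomputable def cnt (N q X r T n : ℕ) : ℕ := ((Icc 1 T).filter (fun h => Good N X r (n + q * h))).card

lemma good_iff (N X r m : ℕ) : Good N X r m ↔
    Pool.Agent.TH464.PO.Sf (Pool.Agent.Y879.AP.Q2 (-1) N) ⌊(X : ℝ) ^ (1 / (r : ℝ))⌋₊ m := by
  unfold Good Pool.Agent.TH464.PO.Sf Pool.Agent.Y879.AP.Q2
  have e : (-1) * (m : ℤ) + N = (N : ℤ) - m := by ring
  simp only [e]
  constructor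
  · intro h p hp hd
    obtain ⟨h1, h2⟩ := Pool.Agent.H373R2.T7.mem_pz.1 hp
    obtain ⟨h3, h4⟩ := h p h2 ((Nat.le_floor_iff (by positivity)).1 h1)
    rcases (Nat.prime_iff_prime_int.1 h2).dvd_or_dvd hd with h5 | h5
    · exact h3 h5
    · exact h4 h5
  · intro h p hp hpX
    have h1 := h p (Pool.Agent.H373R2.T7.mem_pz.2 ⟨Nat.le_floor hpX, hp⟩)
    exact ⟨fun h2 => h1 (h2.mul_right _), fun h2 => h1 (h2.mul_left _)⟩

lemma adm_iff (N q n : ℕ) : Adm N q n ↔ Pool.Agent.Y879.AP.Red (Pool.Agent.Y879.AP.Q2 (-1) N) q n := by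
  unfold Adm Pool.Agent.Y879.AP.Red Pool.Agent.Y879.AP.Q2
  have e : (-1) * (n : ℤ) + N = (N : ℤ) - n := by ring
  simp only [e]
  constructor
  · intro h p hp hpq hd
    obtain ⟨h3, h4⟩ := h p hp hpq
    rcases (Nat.prime_iff_prime_int.1 hp).dvd_or_dvd hd with h5 | h5
    · exact h3 h5
    · exact h4 h5
  · intro h p hp hpq
    have h1 := h p hp hpq
    exact ⟨fun h2 => h1 (h2.mul_right _), fun h2 => h1 (h2.mul_left _)⟩

lemma nu_eq (N p : ℕ) (hp : p.Prime) :
    Pool.Agent.H373R2.T7.nuB (Pool.Agent.Y879.AP.Q2 (-1) N) p = nu N p := by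
  rw [Pool.Agent.Y879.AP.nuB_Q2 (-1) N (by norm_num) p hp]
  unfold Pool.Agent.Y879.AP.nu2 nu
  simp only [Int.natCast_dvd_natCast]

lemma V_eq (N q X r : ℕ) : V N q X r =
    Pool.Agent.W123.RP.Vq (Pool.Agent.Y879.AP.Qn (Pool.Agent.Y879.AP.Q2 (-1) N) q) ⌊(X : ℝ) ^ (1 / (r : ℝ))⌋₊ := by
  unfold V Pool.Agent.W123.RP.Vq
  apply prod_congr rfl
  intro p hp
  have hpp := (Pool.Agent.H373R2.T7.mem_pz.1 hp).2
  split_ifs with h
  · rw [Pool.Agent.Y879.AP.nuB_Qn_dvd _ _ _ h]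
    simp
  · rw [Pool.Agent.Y879.AP.nuB_Qn_not _ _ _ h, nu_eq N p hpp]

lemma R_eq (N q : ℕ) : R N q = Pool.Agent.Y879.AP.RD (Pool.Agent.Y879.AP.Q2 (-1) N) q := by
  unfold R Pool.Agent.Y879.AP.RD
  apply prod_congr rfl
  intro p hp
  rw [nu_eq N p (Nat.prime_of_mem_primeFactors hp)]

lemma cnt_eq (N q X r T n : ℕ) : cnt N q X r T n =
    Pool.Agent.Y879.AP.Ws (Pool.Agent.Y879.AP.Q2 (-1) N) q ⌊(X : ℝ) ^ (1 / (r : ℝ))⌋₊ T n := by
  classical
  unfold cnt Pool.Agent.Y879.AP.Ws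
  congr 1
  apply filter_congr
  intro h _
  exact good_iff N X r (n + q * h)

open Classical in
/-- **The Poisson law over the residue classes of EVERY modulus for almost prime Goldbach representations.**
For `A, δ, θ > 0`, `x₀` and `ε > 0` there is `r₀` such that for all `r ≥ r₀` and all large `X` the
following holds uniformly for ALL even `N` with `0 < N ≤ X ^ A`, ALL moduli `1 ≤ q ≤ X ^ A` such that `N`
is none of the numbers `q t`, `1 ≤ t ≤ X ^ δ`, and ALL intervals `(Z, Z + Y]` with `Y ≥ X ^ θ` (for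
instance a complete system of residues): for all `T` with `T V ≤ x₀` and all finite sets `S` the number of
the admissible `n` in `(Z, Z + Y]` for which the number of the good `m = n + q h`, `1 ≤ h ≤ T`, belongs to
`S` is `Y R ∑_{j ∈ S} exp (- T V) (T V) ^ j / j!`, up to `ε Y R`. (For `T = 0`, `S = {0}` this is the
number of the admissible `n`.) -/
theorem result (A δ θ x₀ ε : ℝ) (hA : 0 < A) (hδ : 0 < δ) (hθ : 0 < θ) (hε : 0 < ε) :
    ∃ r₀ : ℕ, 2 ≤ r₀ ∧ ∀ r : ℕ, r₀ ≤ r → ∀ᶠ X : ℕ in atTop, ∀ N q : ℕ, Even N → 0 < N →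
      (N : ℝ) ≤ (X : ℝ) ^ A → 1 ≤ q → (q : ℝ) ≤ (X : ℝ) ^ A →
      (∀ t : ℕ, 1 ≤ t → (t : ℝ) ≤ (X : ℝ) ^ δ → N ≠ q * t) →
      ∀ Z Y : ℕ, (X : ℝ) ^ θ ≤ Y → ∀ T : ℕ, T * V N q X r ≤ x₀ → ∀ S : Finset ℕ,
        |(((Ioc Z (Z + Y)).filter (fun n => Adm N q n ∧ cnt N q X r T n ∈ S)).card : ℝ) -
          Y * R N q * ∑ j ∈ S, Real.exp (-(T * V N q X r)) * (T * V N q X r) ^ j / j.factorial| ≤
          ε * (Y * R N q) := by
  obtain ⟨r₀, hr₀, h⟩ := Pool.Agent.Y879.AP.pair_law A δ θ x₀ ε hA hδ hθ hε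
  refine ⟨r₀, hr₀, fun r hr => ?_⟩
  filter_upwards [h r hr] with X hX N q hN hNpos hNX hq hqX hne Z Y hY T hT S
  have habs : |(((N : ℕ) : ℤ) : ℝ)| = N := by
    rw [Int.cast_natCast, abs_of_nonneg (Nat.cast_nonneg _)]
  rw [V_eq] at hT ⊢
  rw [R_eq]
  have h1 := hX (-1) (N : ℤ) q (by norm_num) (by exact_mod_cast hN) (by exact_mod_cast hNpos.ne')
    (by rw [habs]; exact hNX) hq hqX (fun t ht htX h2 => by
      have h3 : (N : ℤ).natAbs = ((q : ℤ) * t).natAbs := Int.natAbs_eq_iff_sq_eq.2 h2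
      rw [Int.natAbs_natCast, Int.natAbs_mul, Int.natAbs_natCast, Int.natAbs_natCast] at h3
      exact hne t ht htX h3) Z Y hY T hT S
  refine le_trans (le_of_eq ?_) h1
  congr 4
  apply filter_congr
  intro n _
  rw [adm_iff, cnt_eq]

end Pool.Agent.Results.MP_629a14_nt.ClassesLaw
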