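import Pool.Agent.R460.GS.Asm
import Pool.Agent.TH894.SM0

/-!
# The order of magnitude of the binary Goldbach representation numbers in the residue classes of EVERY
# modulus `q ≤ x ^ (7 / 10 - ρ)`, in all windows

The proof is project GS of helper460, helper453, helper461 and helper462 (`R460/GS`, `R453/GS`, `R461/GS`,
`R462/GS`). Beyond `x ^ (1 / 2)` the indicator of the primes cannot be decomposed into Dirichlet characters
modulo `q` with a large sieve; the primes are bounded below by a decomposition of a rough indicator whose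
bilinear parts are controlled up to `x ^ (7 / 10)`, and the difference from a sieve model is treated on the
major and on the minor arcs.
-/

set_option autoImplicit false

namespace Pool.Agent.Results.MP_629a14_nt.ClassesOfEveryModulus

open Finset

/-- the number of ordered representations of `n` as a sum of two primes -/
def r₂ (n : ℕ) : ℕ := ((antidiagonal n).filter (fun q : ℕ × ℕ => q.1.Prime ∧ q.2.Prime)).card

/-- (1) `n² / (φ(n) log² n)` is at most `40` times the number of ordered representations of `n` as a sum of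
two primes; (2) more generally in every window `(y₁, y₂]` with `y₂ ≤ n` of length at least `n / (log n)^A`
there are at least `(y₂ - y₁) n / (40 φ(n) log² n)` primes `p` such that `n - p` is a prime. -/
def Holds (A n : ℕ) : Prop :=
  1 / 40 * ((n : ℝ) ^ 2 / (n.totient * Real.log n ^ 2)) ≤ r₂ n ∧
  ∀ y₁ y₂ : ℕ, y₁ < y₂ → y₂ ≤ n → (n : ℝ) / Real.log n ^ A ≤ (y₂ : ℝ) - y₁ →
    1 / 40 * (((y₂ : ℝ) - y₁) * n / (n.totient * Real.log n ^ 2)) ≤
      (((Ioc y₁ y₂).filter (fun p => p.Prime ∧ (n - p).Prime)).card : ℝ)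

/-- the even integers `2 < n ≤ x`, `n ≡ a (mod q)`, which do not satisfy `Holds A` -/
def exceptional (A x q a : ℕ) : Set ℕ :=
  {n : ℕ | 2 < n ∧ n ≤ x ∧ 2 ∣ n ∧ n ≡ a [MOD q] ∧ ¬ Holds A n}

lemma card_eq (n : ℕ) : r₂ n = ((Ioc 0 n).filter (fun p => p.Prime ∧ (n - p).Prime)).card := by
  unfold r₂
  symm
  apply card_bij' (fun p _ => (p, n - p)) (fun q _ => q.1)
  · intro p hp
    rw [mem_filter, mem_Ioc] at hp
    rw [mem_filter, HasAntidiagonal.mem_antidiagonal]
    exact ⟨by simp only; omega, hp.2⟩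
  · intro q hq
    rw [mem_filter, HasAntidiagonal.mem_antidiagonal] at hq
    have := hq.2.1.pos
    rw [mem_filter, mem_Ioc]
    refine ⟨⟨this, by omega⟩, hq.2.1, ?_⟩
    have e : n - q.1 = q.2 := by omega
    rw [e]
    exact hq.2.2
  · intro p _
    rfl
  · intro q hq
    rw [mem_filter, HasAntidiagonal.mem_antidiagonal] at hq
    ext
    · rfl
    · simp only
      omega

lemma holds_of {A n : ℕ} (h2 : 2 ∣ n) (hn : 2 < n) (h : Pool.Agent.R460.GS.WinL A n) : Holds A n := by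
  have hn0 : n ≠ 0 := by omega
  have hnr : (0 : ℝ) < n := by exact_mod_cast Nat.pos_of_ne_zero hn0
  have hl : 1 ≤ Real.log n := by
    rw [Real.le_log_iff_exp_le hnr]
    have h3 : (3 : ℝ) ≤ n := by exact_mod_cast hn
    linarith [Real.exp_one_lt_d9]
  have hl0 : 0 < Real.log n := by linarith
  have ht : (0 : ℝ) < n.totient := by exact_mod_cast Nat.totient_pos.2 (Nat.pos_of_ne_zero hn0)
  obtain ⟨s1, _⟩ := Pool.Agent.TH894.SM.sing_tot n hn0 h2
  have hC := Pool.Agent.W93.GB.C2_half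
  have hs : 1 / 2 * ((n : ℝ) / n.totient) ≤ Pool.Agent.H560R3.GB.sing n := by
    refine le_trans ?_ s1
    gcongr
  have key : ∀ y₁ y₂ : ℕ, y₁ < y₂ → y₂ ≤ n → (n : ℝ) / Real.log n ^ A ≤ (y₂ : ℝ) - y₁ →
      1 / 40 * (((y₂ : ℝ) - y₁) * n / (n.totient * Real.log n ^ 2)) ≤
      (((Ioc y₁ y₂).filter (fun p => p.Prime ∧ (n - p).Prime)).card : ℝ) := by
    intro y₁ y₂ h12 hy2 hlen
    refine le_trans ?_ (h y₁ y₂ h12 hy2 hlen)
    have hpos : (0 : ℝ) ≤ (y₂ : ℝ) - y₁ := by
      have : (y₁ : ℝ) < y₂ := by exact_mod_cast h12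
      linarith
    calc 1 / 40 * (((y₂ : ℝ) - y₁) * n / (n.totient * Real.log n ^ 2)) =
          1 / 20 * (1 / 2 * ((n : ℝ) / n.totient) * ((y₂ : ℝ) - y₁) / Real.log n ^ 2) := by
          field_simp
          ring
      _ ≤ 1 / 20 * (Pool.Agent.H560R3.GB.sing n * ((y₂ : ℝ) - y₁) / Real.log n ^ 2) := by gcongr
  refine ⟨?_, key⟩
  have h3 := key 0 n (by omega) le_rfl (by
    rw [Nat.cast_zero, sub_zero]
    exact div_le_self hnr.le (one_le_pow₀ hl))
  rw [card_eq]
  refine le_trans (le_of_eq ?_) h3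
  rw [Nat.cast_zero, sub_zero, sq (n : ℝ)]

/-- **The order of magnitude in residue classes.** For all `ρ > 0`, `A` and `T` and all sufficiently large
integers `x`: for EVERY modulus `1 ≤ q ≤ x ^ (7 / 10 - ρ)` and every `a` with `gcd(a, q) ≤ (log x)^T` all but
at most `x / (q (log x)^A)` of the even integers `2 < n ≤ x`, `n ≡ a (mod q)`, satisfy
`r₂(n) ≥ (1 / 40) n² / (φ(n) log² n)`, and the same lower bound holds in all windows of length at least
`n / (log n)^A`. -/
theorem result (ρ : ℝ) (hρ : 0 < ρ) (A T : ℕ) :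
    ∃ x₀ : ℕ, ∀ x : ℕ, x₀ ≤ x → ∀ q : ℕ, 1 ≤ q → (q : ℝ) ≤ (x : ℝ) ^ (7 / 10 - ρ) → ∀ a : ℕ,
      (Nat.gcd a q : ℝ) ≤ Real.log x ^ T →
        ((exceptional A x q a).ncard : ℝ) ≤ (x : ℝ) / (q * Real.log x ^ A) := by
  obtain ⟨N₀, h⟩ := Pool.Agent.R460.GS.gs_all ρ hρ A T
  refine ⟨N₀, fun x hx q hq1 hq a ha => ?_⟩
  refine le_trans ?_ (h x hx q hq1 hq a ha)
  classical
  rw [Nat.cast_le, ← Set.ncard_coe_finset]
  apply Set.ncard_le_ncard _ (finite_toSet _)
  rintro n ⟨h1, h2, h3, h4, h5⟩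
  rw [mem_coe]
  unfold Pool.Agent.Y883.T4.badc
  rw [mem_filter, mem_Icc]
  exact ⟨⟨by omega, h2⟩, h3, h4, fun hw => h5 (holds_of h3 h1 hw)⟩

end Pool.Agent.Results.MP_629a14_nt.ClassesOfEveryModulus
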