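import Pool.Agent.R459.Nbhd
import Pool.Agent.TH894.SM0

/-!
# The order of magnitude of the Goldbach representation numbers, in all long windows, for all even integers near
almost all members of arbitrary thin families of integers of nearly minimal additive energy

Definitions used from `Pool.Agent.H560R3.GB` (starting files): `C₂`: the twin prime constant
`∏_{p > 2} (1 - 1 / (p - 1) ^ 2)`; `sing m`: the singular series `2 C₂ ∏_{p ∣ m, p > 2} (p - 1) / (p - 2)`.
-/

set_option autoImplicit false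

namespace Pool.Agent.Results.MP_629a14_nt.ThinFamiliesEveryWindow

open Finset Pool.Agent.H560R3.GB

/-- The number of ordered representations of `m` as a sum `p + q` of two primes with `y₁ < p ≤ y₂`
(for `y₁ = 0`, `y₂ = m` this is `r₂(m; ℙ)` of the problem). -/
def r₂ (m y₁ y₂ : ℕ) : ℕ := ((Ioc y₁ y₂).filter (fun p => p.Prime ∧ (m - p).Prime)).card

/-- For all windows `(y₁, y₂] ⊆ (0, m]` of length at least `m / log ^ A m` (in particular for the window `(0, m]`,
that is, for all representations) the number `r₂ m y₁ y₂`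
(1) is `sing m * (y₂ - y₁) / log ^ 2 m` up to a relative error of at most `ε`; and
(2) lies between `(1 - ε) C₂` and `1 + ε` times `(m / φ(m)) (y₂ - y₁) / log ^ 2 m`. -/
def Holds (ε : ℝ) (A m : ℕ) : Prop :=
  ∀ y₁ y₂ : ℕ, y₁ < y₂ → y₂ ≤ m → (m : ℝ) / Real.log m ^ A ≤ (y₂ : ℝ) - y₁ →
    |(r₂ m y₁ y₂ : ℝ) - sing m * ((y₂ : ℝ) - y₁) / Real.log m ^ 2| ≤
      ε * (sing m * ((y₂ : ℝ) - y₁) / Real.log m ^ 2) ∧
    (1 - ε) * C₂ * (m / m.totient * ((y₂ : ℝ) - y₁) / Real.log m ^ 2) ≤ r₂ m y₁ y₂ ∧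
    (r₂ m y₁ y₂ : ℝ) ≤ (1 + ε) * (m / m.totient * ((y₂ : ℝ) - y₁) / Real.log m ^ 2)

/-- The additive energy of order `h` of a finite family of integers `v i`: the number of solutions of
`v (a 1) + ... + v (a h) = v (b 1) + ... + v (b h)`. -/
noncomputable def energy (h : ℕ) {ι : Type} [Fintype ι] (v : ι → ℤ) : ℕ :=
  Nat.card {q : (Fin h → ι) × (Fin h → ι) // ∑ j, v (q.1 j) = ∑ j, v (q.2 j)}

/-- The number of representations of `t` as `v (a 1) + ... + v (a h)`. -/
noncomputable def reps (h : ℕ) {ι : Type} [Fintype ι] (v : ι → ℤ) (t : ℤ) : ℕ :=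
  Nat.card {a : Fin h → ι // ∑ j, v (a j) = t}

open Classical in
/-- The number of the members `v i` of the family for which `Holds` fails for some even integer `m > 0` at a distance
of at most `log ^ W N` from `v i`. -/
noncomputable def exceptions (ε : ℝ) (A W N : ℕ) {ι : Type} [Fintype ι] (v : ι → ℤ) : ℕ :=
  (univ.filter (fun i => ∃ m : ℕ, 0 < m ∧ Even m ∧ |(((m : ℤ) - v i : ℤ) : ℝ)| ≤ Real.log N ^ W ∧
    ¬ Holds ε A m)).card

lemma C₂_nonneg : 0 ≤ C₂ := by
  unfold C₂
  apply Real.iInf_nonneg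
  intro z
  apply prod_nonneg
  intro p hp
  rw [mem_filter, mem_Icc] at hp
  exact (Pool.Agent.TH894.SM.fac_pos p hp.1.1).le

lemma holds_of (A : ℕ) (ε : ℝ) (hε : 0 < ε) (m : ℕ) (hm : 3 ≤ m) (h2 : 2 ∣ m)
    (hw : Pool.Agent.W93.PG.WinP ε A m) : Holds ε A m := by
  intro y₁ y₂ hy hym hl
  have h1 : |(r₂ m y₁ y₂ : ℝ) - sing m * ((y₂ : ℝ) - y₁) / Real.log m ^ 2| ≤
      ε * (sing m * ((y₂ : ℝ) - y₁) / Real.log m ^ 2) := hw y₁ y₂ hy hym hl
  refine ⟨h1, ?_, ?_⟩
  all_goals
    have hm0 : m ≠ 0 := by omega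
    have hmr : (0 : ℝ) < m := by exact_mod_cast Nat.pos_of_ne_zero hm0
    have hlog : 0 < Real.log m := Real.log_pos (by exact_mod_cast (by omega : 1 < m))
    have ht : (0 : ℝ) < m.totient := by exact_mod_cast Nat.totient_pos.2 (Nat.pos_of_ne_zero hm0)
    obtain ⟨s1, s2⟩ := Pool.Agent.TH894.SM.sing_tot m hm0 h2
    have hC := C₂_nonneg
    obtain ⟨Q, hQ⟩ : ∃ Q : ℝ, Q = ((y₂ : ℝ) - y₁) / Real.log m ^ 2 := ⟨_, rfl⟩
    have hyr : (y₁ : ℝ) < y₂ := by exact_mod_cast hy
    have hQ0 : 0 < Q := by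
      rw [hQ]
      apply div_pos (by linarith) (by positivity)
    have hR0 : 0 < (m : ℝ) / m.totient := by positivity
    have e1 : sing m * ((y₂ : ℝ) - y₁) / Real.log m ^ 2 = sing m * Q := by rw [hQ]; ring
    have e2 : (m : ℝ) / m.totient * ((y₂ : ℝ) - y₁) / Real.log m ^ 2 = m / m.totient * Q := by rw [hQ]; ring
    rw [e1, abs_le] at h1
    rw [e2]
  · rcases le_or_gt ε 1 with hε1 | hε1
    · have h3 : (1 - ε) * (C₂ * (m / m.totient) * Q) ≤ (1 - ε) * (sing m * Q) := by
        apply mul_le_mul_of_nonneg_left _ (by linarith)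
        exact mul_le_mul_of_nonneg_right s1 hQ0.le
      have e3 : (1 - ε) * C₂ * (m / m.totient * Q) = (1 - ε) * (C₂ * (m / m.totient) * Q) := by ring
      rw [e3]
      linarith [h1.1]
    · have h3 : (1 - ε) * C₂ * (m / m.totient * Q) ≤ 0 := by
        apply mul_nonpos_of_nonpos_of_nonneg _ (by positivity)
        exact mul_nonpos_of_nonpos_of_nonneg (by linarith) hC
      exact h3.trans (Nat.cast_nonneg _)
  · have h3 : (1 + ε) * (sing m * Q) ≤ (1 + ε) * (m / m.totient * Q) := by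
      apply mul_le_mul_of_nonneg_left _ (by linarith)
      exact mul_le_mul_of_nonneg_right s2 hQ0.le
    linarith [h1.2]

theorem first (h A B C W U : ℕ) (hh : 1 ≤ h) (ε : ℝ) (hε : 0 < ε) :
    ∃ N₀ : ℕ, ∀ N : ℕ, N₀ ≤ N → ∀ (ι : Type) [Fintype ι] (v : ι → ℤ),
      (∀ i, v i ≤ B * N) →
      (energy h v : ℝ) * N ≤ Real.log N ^ C * (Fintype.card ι : ℝ) ^ (2 * h) →
      (exceptions ε A W N v : ℝ) ≤ Fintype.card ι / Real.log N ^ U := by
  classical
  obtain ⟨N₀, h0⟩ := Pool.Agent.R459.near_even h A B C W U 3 hh ε hε (Holds ε A)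
    (fun m hm h2 hw => holds_of A ε hε m hm h2 hw)
  refine ⟨N₀, fun N hN ι _ v hv hE => ?_⟩
  unfold exceptions
  refine h0 N hN ι v hv hE _ ?_
  intro i hi
  rw [mem_filter] at hi
  exact hi.2

/-- Let `h ≥ 1`, `A`, `B`, `C`, `W`, `U` and `ε > 0` be fixed, and let `N` be large. Let `v i`, `i ∈ ι`, be an
arbitrary finite family of integers `≤ B N`.

* Suppose that the additive energy of order `h` of the family is at most `log ^ C N` times
  `(#ι) ^ (2 h) / N` (up to the power of the logarithm this is the least possible energy of a family with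
  members in `[0, N]`, and the family may have as few as `N ^ (1 / h)` members). Then all the members of the
  family, with at most `#ι / log ^ U N` exceptions, have the following property: for ALL the positive even
  integers `m` at a distance of at most `log ^ W N` from the member, and all windows `(y₁, y₂] ⊆ (0, m]` of length at
  least `m / log ^ A m`, the number of representations `m = p + q` with primes `p`, `q` and `y₁ < p ≤ y₂` is as
  predicted, up to a relative error of at most `ε`, and has the order of magnitude of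
  `(m / φ(m)) (y₂ - y₁) / log ^ 2 m`. The case `y₁ = 0`, `y₂ = m` is the order of magnitude of `r₂(m; ℙ)` asked for
  in the problem.
* In particular this holds if no integer has more than `log ^ C N` representations as a sum of `h` members
  of the family, and `(#ι) ^ h ≥ N / log ^ C N`. -/
theorem result (h A B C W U : ℕ) (hh : 1 ≤ h) (ε : ℝ) (hε : 0 < ε) :
    (∃ N₀ : ℕ, ∀ N : ℕ, N₀ ≤ N → ∀ (ι : Type) [Fintype ι] (v : ι → ℤ),
      (∀ i, v i ≤ B * N) →
      (energy h v : ℝ) * N ≤ Real.log N ^ C * (Fintype.card ι : ℝ) ^ (2 * h) →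
      (exceptions ε A W N v : ℝ) ≤ Fintype.card ι / Real.log N ^ U) ∧
    (∃ N₀ : ℕ, ∀ N : ℕ, N₀ ≤ N → ∀ (ι : Type) [Fintype ι] (v : ι → ℤ),
      (∀ i, v i ≤ B * N) →
      (∀ t, (reps h v t : ℝ) ≤ Real.log N ^ C) →
      (N : ℝ) ≤ Real.log N ^ C * (Fintype.card ι : ℝ) ^ h →
      (exceptions ε A W N v : ℝ) ≤ Fintype.card ι / Real.log N ^ U) := by
  refine ⟨first h A B C W U hh ε hε, ?_⟩
  obtain ⟨N₀, h0⟩ := first h A B (2 * C) W U hh ε hε
  obtain ⟨N₁, h1⟩ := Pool.Agent.H373R2.T7.ev_L' 1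
  refine ⟨N₀ + N₁, fun N hN ι _ v hv hJ hx => ?_⟩
  apply h0 N (by omega) ι v hv
  have hL := h1 N (by omega)
  have hL0 : 0 ≤ Real.log N := by linarith
  have h2 : (energy h v : ℝ) ≤ (Fintype.card ι : ℝ) ^ h * Real.log N ^ C :=
    Pool.Agent.TH935.GF.En_le h v _ hJ
  calc (energy h v : ℝ) * N ≤ ((Fintype.card ι : ℝ) ^ h * Real.log N ^ C) * (Real.log N ^ C * (Fintype.card ι : ℝ) ^ h) :=
        mul_le_mul h2 hx (Nat.cast_nonneg _) (by positivity)
    _ = Real.log N ^ (2 * C) * (Fintype.card ι : ℝ) ^ (2 * h) := by ring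

end Pool.Agent.Results.MP_629a14_nt.ThinFamiliesEveryWindow
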